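import Pool.Agent.Lib.MP_5d7bff_an.S1.Main

namespace Pool.Agent.Results.MP_5d7bff_an.EllOneSum

open MeasureTheory

/-- `X` is isomorphic to a subspace of `Y`. -/
def Embeds (X Y : Type) [AddCommGroup X] [Module ℝ X] [Norm X] [AddCommGroup Y] [Module ℝ Y]
    [Norm Y] : Prop :=
  ∃ (T : X →ₗ[ℝ] Y) (a b : ℝ), 0 < a ∧ a ≤ b ∧ ∀ x, a * ‖x‖ ≤ ‖T x‖ ∧ ‖T x‖ ≤ b * ‖x‖

/-- `E` has a finite basis for which the norm is monotone in the absolute values of the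
coordinates. -/
def FinLattice (E : Type) [AddCommGroup E] [Module ℝ E] [Norm E] : Prop :=
  ∃ (ι : Type) (_ : Fintype ι) (b : Module.Basis ι ℝ E),
    ∀ x y, (∀ i, |b.repr x i| ≤ |b.repr y i|) → ‖x‖ ≤ ‖y‖

/-- There are finite-dimensional normed lattices whose `ℓ_1`-sum is a Banach space isomorphic to
a subspace of `L_p[0,1]` for every `0 < p < 1` and to no subspace of `L_1` of a measure space. -/
theorem result :
    ∃ (E : ℕ → Type) (_ : ∀ k, NormedAddCommGroup (E k)) (_ : ∀ k, NormedSpace ℝ (E k)),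
      (∀ k, FinLattice (E k)) ∧ CompleteSpace (lp E 1) ∧
      (∀ p : ℝ, 0 < p → p < 1 →
        Embeds (lp E 1) (Lp ℝ (ENNReal.ofReal p) (volume.restrict (Set.Icc (0 : ℝ) 1)))) ∧
      ∀ (Ω : Type) [MeasurableSpace Ω] (ν : Measure Ω), ¬ Embeds (lp E 1) (Lp ℝ 1 ν) :=
  Lib.MP_5d7bff_an.S1.main

end Pool.Agent.Results.MP_5d7bff_an.EllOneSum
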